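import Pool.Agent.Run7.h291.WN.Stm3
import Pool.Agent.N748.MJ.POSV
import Pool.Agent.N748.MJ.GVB
import Pool.Agent.N748.MJ.BND

/-!
# Project WN (helper291), part EQC (helper651): the arithmetic factor is a continuous function of the exponents,
uniformly in the shifts
-/

set_option autoImplicit false

namespace Run7.h651.WN

open Finset Filter MeasureTheory Topology Complex
open Pool.Agent.N748.MG Pool.Agent.N748.MJ Pool.Agent.N748.MJ.POSV
open Run7.h291.WN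

variable {m : ℕ}

/-! ### periodicity -/

theorem pw_per {p : ℕ} (hp : 1 < p) (a z : ℤ) (u : ℂ) :
    (p : ℂ) ^ (u + ((a * (z * (2 * Real.pi / Real.log p)) : ℝ) : ℂ) * I) = (p : ℂ) ^ u := by
  have hp0 : (p : ℂ) ≠ 0 := by exact_mod_cast (by omega : p ≠ 0)
  have hl : Real.log p ≠ 0 := (Real.log_pos (by exact_mod_cast hp)).ne'
  rw [Complex.cpow_def_of_ne_zero hp0, Complex.cpow_def_of_ne_zero hp0, Complex.exp_eq_exp_iff_exists_int]
  refine ⟨a * z, ?_⟩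
  have h1 : Complex.log (p : ℂ) ≠ 0 := by
    rw [← Complex.natCast_log]
    exact_mod_cast hl
  push_cast
  field_simp

theorem lV_per {p : ℕ} (hp : 1 < p) (s : Fin m → ℂ) (h : Fin m → ℝ) (n : Fin m → ℤ) (k : ℕ) :
    lV s (fun j => h j - n j * (2 * Real.pi / Real.log p)) p k = lV s h p k := by
  unfold lV
  refine sum_congr rfl fun μ _ => prod_congr rfl fun j _ => ?_
  congr 1
  have h1 := pw_per hp (μ j : ℤ) (n j) (-((μ j * h j : ℝ) * I))
  rw [← h1]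
  congr 1
  push_cast
  ring

theorem pu_per {p : ℕ} (hp : 1 < p) (u : ℝ) (a b : ℤ) :
    pu p (u - (a * (2 * Real.pi / Real.log p) - b * (2 * Real.pi / Real.log p))) = pu p u := by
  unfold pu
  have h1 := pw_per hp (1 : ℤ) (a - b) (-(((1 + 2 * (0 : ℝ) : ℝ) : ℂ) + ((u : ℝ) : ℂ) * I))
  rw [← h1]
  congr 1
  push_cast
  ring

theorem gV_per {p : ℕ} (hp : 1 < p) (s r : Fin m → ℂ) (h : Fin m → ℝ) (n : Fin m → ℤ) :
    gV s r (fun j => h j - n j * (2 * Real.pi / Real.log p)) 0 p = gV s r h 0 p := by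
  rw [gV_eq, gV_eq]
  congr 1
  · refine prod_congr rfl fun j _ => prod_congr rfl fun l _ => ?_
    congr 1
    unfold bs
    congr 1
    have h1 := pu_per hp (h j - h l) (n j) (n l)
    rw [← h1]
    congr 1
    ring
  · unfold SV
    simp only [lV_per hp]

/-! ### one prime -/

theorem loc (hB : S_BND) (m : ℕ) (R : ℝ) (p : Nat.Primes) : ∀ ε : ℝ, 0 < ε → ∃ η : ℝ, 0 < η ∧
    ∀ (s r s' r' : Fin m → ℂ), (∀ j, ‖s j‖ ≤ R) → (∀ j, ‖r j‖ ≤ R) → (∀ j, ‖s' j‖ ≤ R) → (∀ j, ‖r' j‖ ≤ R) →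
    (∀ j, ‖s j - s' j‖ ≤ η) → (∀ j, ‖r j - r' j‖ ≤ η) → ∀ h : Fin m → ℝ, ‖gV s r h 0 p - gV s' r' h 0 p‖ ≤ ε := by
  intro ε hε
  obtain ⟨k, hk⟩ := exists_nat_ge R
  obtain ⟨k0, hk0⟩ := hB m k (Nat.cast_nonneg k)
  have hp1 : 1 < (p : ℕ) := p.2.one_lt
  have hl : 0 < Real.log (p : ℕ) := Real.log_pos (by exact_mod_cast hp1)
  set T : ℝ := 2 * Real.pi / Real.log (p : ℕ) with hT
  have hT0 : 0 < T := by positivity
  set S : Set ((Fin m → ℂ) × (Fin m → ℂ) × (Fin m → ℝ)) :=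
    Metric.closedBall 0 k ×ˢ (Metric.closedBall 0 k ×ˢ Set.pi Set.univ fun _ => Set.Icc 0 T) with hS
  have hScomp : IsCompact S :=
    (isCompact_closedBall _ _).prod ((isCompact_closedBall _ _).prod (isCompact_univ_pi fun _ => isCompact_Icc))
  have hcont : ContinuousOn (fun q : (Fin m → ℂ) × (Fin m → ℂ) × (Fin m → ℝ) => gV q.1 q.2.1 q.2.2 0 p) S := by
    intro q hq
    have h1 := gV_cont (fun s h hs => (hk0 s h hs).1) q.2.2 p.2 q
      ⟨hq.1, hq.2.1, Metric.mem_closedBall_self zero_le_one⟩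
    refine h1.mono_of_mem_nhdsWithin ?_
    rw [mem_nhdsWithin]
    refine ⟨(fun x : (Fin m → ℂ) × (Fin m → ℂ) × (Fin m → ℝ) => x.2.2) ⁻¹' Metric.ball q.2.2 1,
      Metric.isOpen_ball.preimage (continuous_snd.comp continuous_snd), Metric.mem_ball_self one_pos, ?_⟩
    rintro x ⟨hx1, hx2⟩
    exact ⟨hx2.1, hx2.2.1, Metric.ball_subset_closedBall hx1⟩
  have hu := hScomp.uniformContinuousOn_of_continuous hcont
  rw [Metric.uniformContinuousOn_iff] at hu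
  obtain ⟨δ, hδ, hu⟩ := hu ε hε
  refine ⟨δ / 2, by positivity, fun s r s' r' hs hr hs' hr' hss hrr h => ?_⟩
  set n : Fin m → ℤ := fun j => ⌊h j / T⌋ with hn
  set h' : Fin m → ℝ := fun j => h j - n j * T with hh'
  have hh1 : ∀ j, h' j ∈ Set.Icc 0 T := by
    intro j
    have h1 := Int.floor_le (h j / T)
    have h2 := Int.lt_floor_add_one (h j / T)
    rw [le_div_iff₀ hT0] at h1
    rw [div_lt_iff₀ hT0] at h2
    simp only [hh', hn, Set.mem_Icc]
    constructor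
    · linarith
    · rw [add_mul, one_mul] at h2
      linarith
  have hball : ∀ v : Fin m → ℂ, (∀ j, ‖v j‖ ≤ R) → v ∈ Metric.closedBall (0 : Fin m → ℂ) k := by
    intro v hv
    rw [mem_closedBall_zero_iff]
    exact (pi_norm_le_iff_of_nonneg (Nat.cast_nonneg k)).2 fun j => (hv j).trans hk
  have hmem1 : (s, r, h') ∈ S := ⟨hball s hs, hball r hr, fun j _ => hh1 j⟩
  have hmem2 : (s', r', h') ∈ S := ⟨hball s' hs', hball r' hr', fun j _ => hh1 j⟩
  have hd : dist (s, r, h') (s', r', h') < δ := by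
    have h1 : dist s s' ≤ δ / 2 := (dist_pi_le_iff (by positivity)).2 fun j => by
      rw [dist_eq_norm]; exact hss j
    have h2 : dist r r' ≤ δ / 2 := (dist_pi_le_iff (by positivity)).2 fun j => by
      rw [dist_eq_norm]; exact hrr j
    rw [Prod.dist_eq, Prod.dist_eq]
    simp only [dist_self]
    refine max_lt (by linarith) (max_lt (by linarith) hδ)
  have h3 := hu _ hmem1 _ hmem2 hd
  rw [dist_eq_norm] at h3
  have e1 : gV s r h' 0 p = gV s r h 0 p := gV_per hp1 s r h n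
  have e2 : gV s' r' h' 0 p = gV s' r' h 0 p := gV_per hp1 s' r' h n
  simp only [e1, e2] at h3
  exact h3.le

/-! ### finitely many primes -/

theorem fin_bd {C : ℝ} (hC0 : 0 < C) {s r : Fin m → ℂ} {h : Fin m → ℝ}
    (hC : ∀ p : Nat.Primes, ‖gV s r h 0 p - 1‖ ≤ C / (p : ℝ) ^ 2) (I : Finset Nat.Primes) :
    ‖∏ p ∈ I, gV s r h 0 p‖ ≤ Real.exp (∑' p : Nat.Primes, C / (p : ℝ) ^ 2) := by
  rw [norm_prod]
  calc ∏ p ∈ I, ‖gV s r h 0 p‖ ≤ ∏ p ∈ I, Real.exp (C / (p : ℝ) ^ 2) := by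
        refine prod_le_prod (fun _ _ => norm_nonneg _) fun p _ => ?_
        have h2 : gV s r h 0 p = 1 + (gV s r h 0 p - 1) := by ring
        rw [h2]
        refine (norm_add_le _ _).trans ?_
        rw [norm_one]
        have h1 := Real.add_one_le_exp (C / (p : ℝ) ^ 2)
        linarith [hC p]
    _ = Real.exp (∑ p ∈ I, C / (p : ℝ) ^ 2) := (Real.exp_sum _ _).symm
    _ ≤ _ := by
        apply Real.exp_le_exp.2
        exact (sum_px C).sum_le_tsum I fun p _ => by positivity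

theorem fin_loc (hB : S_BND) (hG : S_GVB) (m : ℕ) (R : ℝ) (hR : 0 ≤ R) (I : Finset Nat.Primes) :
    ∀ ε : ℝ, 0 < ε → ∃ η : ℝ, 0 < η ∧
    ∀ (s r s' r' : Fin m → ℂ), (∀ j, ‖s j‖ ≤ R) → (∀ j, ‖r j‖ ≤ R) → (∀ j, ‖s' j‖ ≤ R) → (∀ j, ‖r' j‖ ≤ R) →
    (∀ j, ‖s j - s' j‖ ≤ η) → (∀ j, ‖r j - r' j‖ ≤ η) → ∀ h : Fin m → ℝ,
    ‖∏ p ∈ I, gV s r h 0 p - ∏ p ∈ I, gV s' r' h 0 p‖ ≤ ε := by
  classical
  obtain ⟨C, hC0, hC⟩ := hG m R hR
  set B : ℝ := Real.exp (∑' p : Nat.Primes, C / (p : ℝ) ^ 2) with hB'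
  have hB0 : 0 < B := Real.exp_pos _
  induction I using Finset.induction_on with
  | empty =>
    intro ε hε
    exact ⟨1, one_pos, fun s r s' r' _ _ _ _ _ _ h => by simpa using hε.le⟩
  | insert a I ha ih =>
    intro ε hε
    obtain ⟨η₁, hη₁, h1⟩ := loc hB m R a (ε / (2 * B)) (by positivity)
    obtain ⟨η₂, hη₂, h2⟩ := ih (ε / (2 * B)) (by positivity)
    refine ⟨min η₁ η₂, lt_min hη₁ hη₂, fun s r s' r' hs hr hs' hr' hss hrr h => ?_⟩
    have e1 := h1 s r s' r' hs hr hs' hr' (fun j => (hss j).trans (min_le_left _ _))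
      (fun j => (hrr j).trans (min_le_left _ _)) h
    have e2 := h2 s r s' r' hs hr hs' hr' (fun j => (hss j).trans (min_le_right _ _))
      (fun j => (hrr j).trans (min_le_right _ _)) h
    have b1 := fin_bd hC0 (fun p : Nat.Primes => (hC s r h hs hr p p.2 0 le_rfl zero_le_one).1) I
    have b2 := fin_bd hC0 (fun p : Nat.Primes => (hC s' r' h hs' hr' p p.2 0 le_rfl zero_le_one).1) {a}
    rw [prod_singleton] at b2
    rw [prod_insert ha, prod_insert ha]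
    have e3 : gV s r h 0 a * ∏ p ∈ I, gV s r h 0 p - gV s' r' h 0 a * ∏ p ∈ I, gV s' r' h 0 p =
        (gV s r h 0 a - gV s' r' h 0 a) * ∏ p ∈ I, gV s r h 0 p +
        gV s' r' h 0 a * (∏ p ∈ I, gV s r h 0 p - ∏ p ∈ I, gV s' r' h 0 p) := by ring
    rw [e3]
    refine (norm_add_le _ _).trans ?_
    rw [norm_mul, norm_mul]
    calc _ ≤ ε / (2 * B) * B + B * (ε / (2 * B)) := by
          refine add_le_add (mul_le_mul e1 b1 (norm_nonneg _) (by positivity))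
            (mul_le_mul b2 e2 (norm_nonneg _) hB0.le)
      _ = ε := by field_simp; norm_num

/-- uniform approximation by the finite products -/
theorem tail (hG : S_GVB) (m : ℕ) (R : ℝ) (hR : 0 ≤ R) : ∀ ε : ℝ, 0 < ε → ∃ I : Finset Nat.Primes,
    ∀ (s r : Fin m → ℂ) (h : Fin m → ℝ), (∀ j, ‖s j‖ ≤ R) → (∀ j, ‖r j‖ ≤ R) →
    ‖aV s r h - ∏ p ∈ I, gV s r h 0 p‖ ≤ ε := by
  classical
  intro ε hε
  obtain ⟨C, hC0, hC⟩ := hG m R hR
  set B : ℝ := Real.exp (∑' p : Nat.Primes, C / (p : ℝ) ^ 2) with hB'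
  have hB0 : 0 < B := Real.exp_pos _
  have hlog : 0 < Real.log (1 + ε / B) := Real.log_pos (by linarith [div_pos hε hB0])
  obtain ⟨I, hI⟩ := summable_iff_vanishing_norm.1 (sum_px C) (Real.log (1 + ε / B)) hlog
  refine ⟨I, fun s r h hs hr => ?_⟩
  have hCp : ∀ p : Nat.Primes, ‖gV s r h 0 p - 1‖ ≤ C / (p : ℝ) ^ 2 := fun p =>
    (hC s r h hs hr p p.2 0 le_rfl zero_le_one).1
  have hsum : Summable fun p : Nat.Primes => gV s r h 0 p - 1 := Summable.of_norm_bounded (sum_px C) hCp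
  have hm := (Complex.multipliable_one_add_of_summable hsum).hasProd
  rw [← aV_eq] at hm
  have hm' : Tendsto (fun J : Finset Nat.Primes => ‖∏ p ∈ J, (1 + (gV s r h 0 p - 1)) - ∏ p ∈ I, gV s r h 0 p‖) atTop
      (𝓝 ‖aV s r h - ∏ p ∈ I, gV s r h 0 p‖) := (hm.sub_const _).norm
  refine le_of_tendsto hm' ?_
  filter_upwards [eventually_ge_atTop I] with J hJ
  have e1 : ∏ p ∈ J, (1 + (gV s r h 0 p - 1)) = (∏ p ∈ J \ I, (1 + (gV s r h 0 p - 1))) * ∏ p ∈ I, gV s r h 0 p := by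
    rw [← prod_sdiff hJ]
    congr 1
    exact prod_congr rfl fun p _ => by ring
  rw [e1]
  have e2 : (∏ p ∈ J \ I, (1 + (gV s r h 0 p - 1))) * ∏ p ∈ I, gV s r h 0 p - ∏ p ∈ I, gV s r h 0 p =
      (∏ p ∈ J \ I, (1 + (gV s r h 0 p - 1)) - 1) * ∏ p ∈ I, gV s r h 0 p := by ring
  rw [e2, norm_mul]
  have e3 := Finset.norm_prod_one_add_sub_one_le (J \ I) (fun p : Nat.Primes => gV s r h 0 p - 1)
  have e4 : ∑ p ∈ J \ I, ‖gV s r h 0 p - 1‖ ≤ Real.log (1 + ε / B) := by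
    refine (sum_le_sum fun p _ => hCp p).trans ?_
    exact (Real.le_norm_self _).trans (hI (J \ I) sdiff_disjoint).le
  have e5 : Real.exp (∑ p ∈ J \ I, ‖gV s r h 0 p - 1‖) - 1 ≤ ε / B := by
    have h1 := Real.exp_le_exp.2 e4
    rw [Real.exp_log (by positivity)] at h1
    linarith
  calc _ ≤ (ε / B) * B := mul_le_mul (e3.trans e5) (fin_bd hC0 hCp I) (norm_nonneg _) (by positivity)
    _ = ε := by field_simp

theorem eqc_of (hB : S_BND) (hG : S_GVB) : S_EQC := by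
  intro m R hR ε hε
  obtain ⟨I, hI⟩ := tail hG m R hR (ε / 3) (by positivity)
  obtain ⟨η, hη, h1⟩ := fin_loc hB hG m R hR I (ε / 3) (by positivity)
  refine ⟨η, hη, fun s r s' r' hs hr hs' hr' hss hrr h => ?_⟩
  have e1 := hI s r h hs hr
  have e2 := hI s' r' h hs' hr'
  have e3 := h1 s r s' r' hs hr hs' hr' hss hrr h
  have e4 : aV s r h - aV s' r' h = (aV s r h - ∏ p ∈ I, gV s r h 0 p) +
      (∏ p ∈ I, gV s r h 0 p - ∏ p ∈ I, gV s' r' h 0 p) - (aV s' r' h - ∏ p ∈ I, gV s' r' h 0 p) := by ring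
  rw [e4]
  refine (norm_sub_le _ _).trans ?_
  have e5 := norm_add_le (aV s r h - ∏ p ∈ I, gV s r h 0 p) (∏ p ∈ I, gV s r h 0 p - ∏ p ∈ I, gV s' r' h 0 p)
  linarith

/-- (EQC) -/
theorem eqc : S_EQC := eqc_of BND.main (GVB.main BND.main)

end Run7.h651.WN
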