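import Pool.Agent.Run7.h651.WN.LAW4

/-!
# Project WN (helper291), part LAW (helper651): the assembly
-/

set_option autoImplicit false

namespace Run7.h651.WN

open Finset Filter MeasureTheory Topology Complex
open Pool.Agent.N748.MG Pool.Agent.N748.MJ
open Run7.h291.WN (YY S_EQC S_LAW)

/-- the algebra of the characteristic function -/
theorem alg {J M X a c C τ ε' ε₁ Q : ℝ} {Jc A2 E1 Em P u ab : ℂ} (hX : 0 < X) (hM : 0 < M) (hc : 0 < c) (hca : c ≤ a)
    (haC : a ≤ C) (hQ : 0 ≤ Q) (hε'0 : 0 < ε') (hε1 : ε' ≤ 1) (hε2 : ε' ≤ c / 2) (hε3 : ε' ≤ c * τ / 12)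
    (hε₁0 : 0 < ε₁) (hε₁1 : ε₁ ≤ 1) (hε₁2 : ε₁ ≤ c * τ / (8 * (C + 2))) (hu : ‖u‖ ≤ ε₁) (hab : ‖ab - a‖ ≤ ε')
    -- `E1 = exp (LM k k)`, `P = exp (S1 I)`, `A2 = exp (LM b b)`
    (hE1 : E1 ≠ 0) (hP : P ≠ 0) (hA2 : A2 = E1 * P * cexp (-(Q : ℂ)) * cexp u)
    (hJb : ‖A2⁻¹ * Jc - X * ab‖ ≤ ε' * X) (hMb : ‖E1⁻¹ * (M : ℂ) - X * a‖ ≤ ε' * X) :
    ‖P⁻¹ * (1 / (M : ℂ)) * Jc - cexp (-(Q : ℂ))‖ ≤ τ := by
  have hC0 : 0 < C := by linarith
  have hM' : (M : ℂ) ≠ 0 := by exact_mod_cast hM.ne'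
  have hXc : ‖(X : ℂ)‖ = X := by rw [Complex.norm_real, Real.norm_of_nonneg hX.le]
  have ha0 : 0 < a := by linarith
  -- the denominators
  set m1 : ℂ := E1⁻¹ * (M : ℂ) with hm1
  have hm1n : c / 2 * X ≤ ‖m1‖ := by
    have h1 := norm_sub_norm_le ((X : ℂ) * a) ((X : ℂ) * a - m1)
    rw [sub_sub_cancel] at h1
    have h2 : ‖(X : ℂ) * a - m1‖ ≤ ε' * X := by rw [norm_sub_rev]; exact hMb
    have h3 : ‖(X : ℂ) * (a : ℂ)‖ = X * a := by
      rw [norm_mul, hXc, Complex.norm_real, Real.norm_of_nonneg ha0.le]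
    rw [h3] at h1
    nlinarith
  have hm1p : 0 < ‖m1‖ := lt_of_lt_of_le (by positivity) hm1n
  have hm1' : m1 ≠ 0 := norm_pos_iff.1 hm1p
  set j1 : ℂ := A2⁻¹ * Jc with hj1
  have hA2' : A2 ≠ 0 := by
    rw [hA2]
    exact mul_ne_zero (mul_ne_zero (mul_ne_zero hE1 hP) (Complex.exp_ne_zero _)) (Complex.exp_ne_zero _)
  have hj1' : ‖j1 - X * a‖ ≤ 2 * ε' * X := by
    have h1 : j1 - X * a = (j1 - X * ab) + X * (ab - a) := by ring
    rw [h1]
    refine (norm_add_le _ _).trans ?_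
    rw [norm_mul, hXc]
    have := mul_le_mul_of_nonneg_left hab hX.le
    linarith
  have e1 : P⁻¹ * (1 / (M : ℂ)) * Jc = cexp (-(Q : ℂ)) * (cexp u * j1 / m1) := by
    have f1 : Jc = A2 * j1 := by rw [hj1]; field_simp
    have f2 : (M : ℂ) = E1 * m1 := by rw [hm1]; field_simp
    rw [f2, f1, hA2]
    field_simp
  have e2 : P⁻¹ * (1 / (M : ℂ)) * Jc - cexp (-(Q : ℂ)) = cexp (-(Q : ℂ)) * ((cexp u * j1 - m1) / m1) := by
    rw [e1]
    field_simp
  rw [e2, norm_mul, norm_div]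
  have e3 : ‖cexp (-(Q : ℂ))‖ ≤ 1 := by
    rw [Complex.norm_exp, Complex.neg_re, Complex.ofReal_re]
    exact Real.exp_le_one_iff.2 (by linarith)
  have e4 : ‖cexp u - 1‖ ≤ 2 * ε₁ := by
    have := Complex.norm_exp_sub_one_le (hu.trans hε₁1)
    linarith
  have e5 : ‖j1‖ ≤ (C + 2) * X := by
    have h1 := norm_add_le (j1 - X * a) ((X : ℂ) * a)
    have h0 : ‖(X : ℂ) * (a : ℂ)‖ = X * a := by
      rw [norm_mul, hXc, Complex.norm_real, Real.norm_of_nonneg ha0.le]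
    rw [sub_add_cancel, h0] at h1
    have h2 : 2 * ε' * X ≤ 2 * X := by nlinarith
    have h3 : X * a ≤ X * C := mul_le_mul_of_nonneg_left haC hX.le
    linarith
  have e6 : ‖cexp u * j1 - m1‖ ≤ (2 * ε₁ * (C + 2) + 3 * ε') * X := by
    have h1 : cexp u * j1 - m1 = (cexp u - 1) * j1 + ((j1 - X * a) - (m1 - X * a)) := by ring
    rw [h1]
    refine (norm_add_le _ _).trans ?_
    have h2 := norm_sub_le (j1 - X * a) (m1 - X * a)
    rw [norm_mul]
    have h3 := mul_le_mul e4 e5 (norm_nonneg _) (by positivity)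
    linarith
  have e7 : (2 * ε₁ * (C + 2) + 3 * ε') ≤ c * τ / 2 := by
    have h1 : ε₁ * (8 * (C + 2)) ≤ c * τ := by
      rw [← le_div_iff₀ (by positivity)]
      exact hε₁2
    linarith
  have hτ : 0 ≤ τ := by
    by_contra hcon
    push Not at hcon
    have : c * τ < 0 := mul_neg_of_pos_of_neg hc hcon
    linarith
  have e8 : ‖cexp u * j1 - m1‖ / ‖m1‖ ≤ τ := by
    rw [div_le_iff₀ hm1p]
    calc ‖cexp u * j1 - m1‖ ≤ (2 * ε₁ * (C + 2) + 3 * ε') * X := e6
      _ ≤ c * τ / 2 * X := mul_le_mul_of_nonneg_right e7 hX.le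
      _ = τ * (c / 2 * X) := by ring
      _ ≤ τ * ‖m1‖ := mul_le_mul_of_nonneg_left hm1n hτ
  calc ‖cexp (-(Q : ℂ))‖ * (‖cexp u * j1 - m1‖ / ‖m1‖) ≤ 1 * τ :=
        mul_le_mul e3 e8 (by positivity) zero_le_one
    _ = τ := one_mul _

theorem law_of (hJ : S_JM) (hP : S_POSV) (hZ : S_LZB) (hE : S_EQC) : S_LAW := by
  intro m k D K W hk hD hW φ hφ h0 h1 ε hε
  have hk1 : 0 < k + 1 := by linarith
  obtain ⟨c, C, hc, hC, hcC⟩ := hP m (k + 1) hk1.le
  obtain ⟨R, τ, hR, hτ, hU⟩ := unif m φ hφ h0 h1 (ε / (2 * (C + 1))) (by positivity)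
  set ε' : ℝ := min (min 1 (ε / 2)) (min (c / 2) (c * τ / 12)) with hε'
  have hε'0 : 0 < ε' := by
    rw [hε']
    exact lt_min (lt_min one_pos (by positivity)) (lt_min (by positivity) (by positivity))
  have hε'1 : ε' ≤ 1 := (min_le_left _ _).trans (min_le_left _ _)
  have hε'2 : ε' ≤ ε / 2 := (min_le_left _ _).trans (min_le_right _ _)
  have hε'3 : ε' ≤ c / 2 := (min_le_right _ _).trans (min_le_left _ _)
  have hε'4 : ε' ≤ c * τ / 12 := (min_le_right _ _).trans (min_le_right _ _)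
  set ε₁ : ℝ := min 1 (c * τ / (8 * (C + 2))) with hε₁
  have hε₁0 : 0 < ε₁ := lt_min one_pos (by positivity)
  obtain ⟨η, hη, hEq⟩ := hE m (k + 1) hk1.le ε' hε'0
  have hlim : ∀ᶠ L : ℝ in atTop, R / √L ≤ min 1 η := by
    have h2 : Tendsto (fun L : ℝ => R / √L) atTop (𝓝 0) := Real.tendsto_sqrt_atTop.const_div_atTop R
    exact h2.eventually_le_const (lt_min one_pos hη)
  refine ((((hJ m (k + 1) W hk1 hW ε' hε'0).and (LM_diff hZ m k D K R hk hD hR ε₁ hε₁0)).and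
    (Ev.of_log hlim)).and (Ev.win (D := D) (c := 1) (e := (1:ℝ) / 2) one_pos (by norm_num))).mono ?_
  rintro X δ hX hδ hδ1 ⟨⟨⟨hjm, hlm⟩, hL⟩, hwin⟩ h hh hhl
  have hX0 : 0 < X := by linarith
  obtain ⟨N, n1, n2, n3, n4, n5⟩ := hjm h fun j => (hh j).trans (by linarith)
  have n4' : ∀ t ∈ N, ∀ j, 0 < mz δ (t + h j) := fun t ht j => norm_pos_iff.2 (n4 t ht j)
  obtain ⟨hCu, hcl⟩ := hcC h
  obtain ⟨a, ha1, ha2⟩ := hcl (fun _ => k) fun _ => by rw [abs_of_pos hk]; linarith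
  have ha0 : 0 < a := by linarith
  have hnk : ∀ j : Fin m, ‖(SM.cc (fun _ => k) j : ℂ)‖ ≤ k + 1 := by
    intro j
    unfold SM.cc
    rw [Complex.norm_real, Real.norm_of_nonneg hk.le]
    linarith
  have ha3 : a ≤ C := by
    have h2 := hCu (fun _ => (k : ℂ)) (fun _ => (k : ℂ)) hnk hnk
    rw [ha2, Complex.norm_real, Real.norm_of_nonneg ha0.le] at h2
    exact h2
  set G : ℝ → ℝ := fun t => SM.G (fun _ => k) h δ t with hG
  set Er := Real.exp (SM.Lr (fun _ => k) h δ) with hEr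
  have hEr0 : 0 < Er := Real.exp_pos _
  have hn0 : ∀ j : Fin m, |(((fun _ => 0 : Fin m → ℤ) j : ℤ) : ℝ)| ≤ k + 1 := fun j => by simp; linarith
  have hjk := n5 (SM.cc (fun _ => k)) (fun _ => 0) hnk hn0
  have hf := SM.real_form (k := fun _ => k) (h := h) (δ := δ) (T := X) (a := a) (ε := ε') (N := N) hX0 ha0.le ha2 hjk
  set M := ∫ t in N, G t with hM
  have hI : IntegrableOn G N := by
    by_contra hcon
    have h2 : M = 0 := integral_undef hcon
    rw [h2, mul_zero, zero_sub, abs_neg] at hf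
    have h3 := le_abs_self (X * a)
    nlinarith
  have hMX : |M - X * (a * Er)| ≤ ε' * (X * Er) := by
    have h2 : M - X * (a * Er) = Er * (Real.exp (-(SM.Lr (fun _ => k) h δ)) * M - X * a) := by
      rw [Real.exp_neg, ← hEr]
      field_simp
    rw [h2, abs_mul, abs_of_pos hEr0]
    calc Er * |Real.exp (-(SM.Lr (fun _ => k) h δ)) * M - X * a| ≤ Er * (ε' * X) :=
          mul_le_mul_of_nonneg_left hf hEr0.le
      _ = ε' * (X * Er) := by ring
  have hM0 : 0 < M := by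
    have h2 := (abs_le.1 hMX).1
    have h3 : 0 < X * Er := by positivity
    nlinarith
  refine ⟨N, n1, n2, n3, n4', a, ha2, hI, hMX.trans ?_, ?_⟩
  · exact mul_le_mul_of_nonneg_right (by linarith) (by positivity)
  -- the law
  have hprob := mu_prob (k := k) h hδ1 hM0 hI rfl
  set L := Real.log (1 / δ) with hLd
  have hL1 : 1 ≤ L := log_inv_ge hδ hδ1
  have key := hU (mu k h δ M N) hprob (by
    intro ξ hξ
    rw [char_mu hk h hδ hδ1 hM0 n1 n4' ξ]
    have hbk : ∀ j, ‖be k L ξ j - (k : ℂ)‖ ≤ R / √L := by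
      intro j
      unfold be
      rw [add_sub_cancel_left, norm_mul, Complex.norm_I, mul_one, Complex.norm_real, Real.norm_eq_abs]
      exact tau_le hL1 hR.le (hξ j)
    have hbn : ∀ j, ‖be k L ξ j‖ ≤ k + 1 := by
      intro j
      have h2 := norm_add_le (be k L ξ j - (k : ℂ)) (k : ℂ)
      rw [sub_add_cancel, Complex.norm_real, Real.norm_of_nonneg hk.le] at h2
      have h3 := (hbk j).trans (hL.trans (min_le_left _ _))
      linarith
    have hbη : ∀ j, ‖be k L ξ j - (k : ℂ)‖ ≤ η := fun j => (hbk j).trans (hL.trans (min_le_right _ _))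
    have hab := hEq (be k L ξ) (be k L ξ) (fun _ => (k : ℂ)) (fun _ => (k : ℂ)) hbn hbn hnk hnk hbη hbη h
    rw [ha2] at hab
    have hjb := n5 (be k L ξ) (fun _ => 0) hbn hn0
    have hd := hlm h hh hhl ξ hξ
    rw [SM.sp_zero, SM.sm_zero] at hjb hjk
    have ha2' : aV (SM.cc fun _ => k) (SM.cc fun _ => k) h = a := ha2
    rw [ha2'] at hjk
    simp_rw [SM.prod_ZZ] at hjk
    rw [integral_complex_ofReal] at hjk
    set S1 : ℝ := ∑ j, ξ j * (k * L / √(L / 2)) with hS1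
    set Q : ℝ := (∑ j, ξ j ^ 2) / 2 with hQ
    have hQ0 : 0 ≤ Q := by
      rw [hQ]
      have : 0 ≤ ∑ j, ξ j ^ 2 := sum_nonneg fun j _ => sq_nonneg _
      linarith
    have hnorm : ((-(‖ξ‖ ^ 2) / 2 : ℝ) : ℂ) = -(Q : ℂ) := by
      rw [EuclideanSpace.real_norm_sq_eq, hQ]
      push_cast
      ring
    rw [hnorm]
    set u : ℂ := LM (be k L ξ) (be k L ξ) h δ - LM (fun _ => (k : ℂ)) (fun _ => (k : ℂ)) h δ -
      ((S1 : ℂ) * I - (Q : ℂ)) with hu
    have hA2 : cexp (LM (be k L ξ) (be k L ξ) h δ) =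
        cexp (LM (SM.cc fun _ => k) (SM.cc fun _ => k) h δ) * cexp ((S1 : ℂ) * I) * cexp (-(Q : ℂ)) * cexp u := by
      rw [← Complex.exp_add, ← Complex.exp_add, ← Complex.exp_add, hu]
      congr 1
      unfold SM.cc
      ring
    rw [Complex.exp_neg (LM (be k L ξ) (be k L ξ) h δ)] at hjb
    rw [Complex.exp_neg (LM (SM.cc fun _ => k) (SM.cc fun _ => k) h δ)] at hjk
    rw [Complex.exp_neg ((S1 : ℂ) * I)]
    exact alg (J := 0) (Em := 0) hX0 hM0 hc ha1 ha3 hQ0 hε'0 hε'1 hε'3 hε'4 hε₁0 (min_le_left _ _) (min_le_right _ _) hd hab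
      (Complex.exp_ne_zero _) (Complex.exp_ne_zero _) hA2 hjb hjk)
  rw [int_mu hk h hδ1 hM0 N] at key
  · set I₀ : ℝ := (∫ x, φ x ∂(ProbabilityTheory.gaussianReal 0 1)) ^ m with hI₀
    have hI₀0 : 0 ≤ I₀ := pow_nonneg (integral_nonneg h0) _
    have hI₀1 : I₀ ≤ 1 := by
      refine pow_le_one₀ (integral_nonneg h0) ?_
      calc ∫ x, φ x ∂(ProbabilityTheory.gaussianReal 0 1) ≤ ∫ _x, (1:ℝ) ∂(ProbabilityTheory.gaussianReal 0 1) := by
            refine integral_mono ?_ (integrable_const _) h1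
            refine Integrable.mono' (integrable_const (1:ℝ)) hφ.aestronglyMeasurable (Eventually.of_forall fun x => ?_)
            rw [Real.norm_of_nonneg (h0 x)]
            exact h1 x
        _ = 1 := by simp
    have e1 : ∫ t in N, rh k h δ M t • ∏ j, φ ((Yv k h δ t) j) =
        (∫ t in N, SM.G (fun _ => k) h δ t * ∏ j, φ (YY k δ (t + h j))) / M := by
      rw [← integral_div]
      refine integral_congr_ae (Eventually.of_forall fun t => ?_)
      show SM.G (fun _ => k) h δ t / M * ∏ j, φ ((Yv k h δ t) j) = _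
      unfold Yv
      show SM.G (fun _ => k) h δ t / M * ∏ j, φ (YY k δ (t + h j)) = _
      ring
    rw [e1] at key
    set T := ∫ t in N, SM.G (fun _ => k) h δ t * ∏ j, φ (YY k δ (t + h j)) with hT
    have e2 : |T - M * I₀| ≤ M * (ε / (2 * (C + 1))) := by
      have h2 : T - M * I₀ = M * (T / M - I₀) := by field_simp
      rw [h2, abs_mul, abs_of_pos hM0]
      exact mul_le_mul_of_nonneg_left key hM0.le
    have e3 : T - X * (a * Er) * I₀ = (T - M * I₀) + (M - X * (a * Er)) * I₀ := by ring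
    rw [e3]
    refine (abs_add_le _ _).trans ?_
    rw [abs_mul, abs_of_nonneg hI₀0]
    have e4 : |M - X * (a * Er)| * I₀ ≤ ε / 2 * (X * Er) := by
      calc |M - X * (a * Er)| * I₀ ≤ |M - X * (a * Er)| * 1 := mul_le_mul_of_nonneg_left hI₀1 (abs_nonneg _)
        _ ≤ ε / 2 * (X * Er) := by
            rw [mul_one]
            exact hMX.trans (mul_le_mul_of_nonneg_right hε'2 (by positivity))
    have e5 : M ≤ (C + 1) * (X * Er) := by
      have h2 := (abs_le.1 hMX).2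
      have h3 : 0 < X * Er := by positivity
      have h4 : ε' * (X * Er) ≤ 1 * (X * Er) := mul_le_mul_of_nonneg_right hε'1 h3.le
      have h5 : X * (a * Er) ≤ C * (X * Er) := by
        calc X * (a * Er) = a * (X * Er) := by ring
          _ ≤ _ := mul_le_mul_of_nonneg_right ha3 h3.le
      linarith
    have e6 : M * (ε / (2 * (C + 1))) ≤ ε / 2 * (X * Er) := by
      calc M * (ε / (2 * (C + 1))) ≤ ((C + 1) * (X * Er)) * (ε / (2 * (C + 1))) :=
            mul_le_mul_of_nonneg_right e5 (by positivity)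
        _ = ε / 2 * (X * Er) := by field_simp
    linarith
  · refine Continuous.stronglyMeasurable ?_
    exact continuous_finsetProd _ fun j _ => hφ.comp (by fun_prop)

end Run7.h651.WN
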