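import Pool.Agent.N748.MJ.Fin
import Pool.Agent.Run7.h651.WN.EQC
import Pool.Agent.Run7.h651.WN.LAW5

/-!
# Project WN (helper291), part LAW (helper651)
-/

set_option autoImplicit false

namespace Run7.h651.WN

open Pool.Agent.N748.MG Pool.Agent.N748.MJ

/-- (LAW) -/
theorem law : Run7.h291.WN.S_LAW := law_of jmF posF LZB.main eqc

end Run7.h651.WN
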