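import Pool.Agent.Run7.h291.WN.Stm3
import Pool.Agent.Run7.h772.WN.A

/-!
# Project WN (helper291), part LAW (helper651): the logarithm of zeta to the right of the line `1`
-/

set_option autoImplicit false

namespace Run7.h651.WN

open Finset Filter MeasureTheory Topology Complex
open Pool.Agent.N748.MG Pool.Agent.N748.MJ

theorem LZ_conj {δ : ℝ} (h0 : 0 < δ) (u : ℝ) : LZ (1 + 2 * δ) (-u) = (starRingEnd ℂ) (LZ (1 + 2 * δ) u) := by
  unfold LZ
  rw [Complex.conj_tsum]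
  refine tsum_congr fun p => ?_
  rw [map_neg]
  congr 1
  have hp : (p : ℕ).Prime := p.2
  have e1 : ((p : ℕ) : ℂ) ^ (-(((1 + 2 * δ : ℝ) : ℂ) + ((-u : ℝ) : ℂ) * I)) =
      (starRingEnd ℂ) (((p : ℕ) : ℂ) ^ (-(((1 + 2 * δ : ℝ) : ℂ) + (u : ℂ) * I))) := by
    have h := Complex.cpow_conj ((p : ℕ) : ℂ) (-(((1 + 2 * δ : ℝ) : ℂ) + (u : ℂ) * I))
      (by rw [Complex.natCast_arg]; exact Real.pi_ne_zero.symm)
    rw [Complex.conj_natCast] at h
    rw [← h]
    congr 1
    rw [map_neg, map_add, map_mul, Complex.conj_ofReal, Complex.conj_ofReal, Complex.conj_I]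
    push_cast
    ring
  rw [e1, ← Complex.log_conj]
  · rw [map_sub, map_one]
  · apply slitPlane_arg_ne_pi
    left
    rw [Complex.sub_re, Complex.one_re]
    have h1 : ‖((p : ℕ) : ℂ) ^ (-(((1 + 2 * δ : ℝ) : ℂ) + (u : ℂ) * I))‖ < 1 := by
      rw [Complex.norm_natCast_cpow_of_pos hp.pos]
      have e2 : (-(((1 + 2 * δ : ℝ) : ℂ) + (u : ℂ) * I)).re = -(1 + 2 * δ) := by simp
      rw [e2]
      exact Real.rpow_lt_one_of_one_lt_of_neg (by exact_mod_cast hp.one_lt) (by linarith)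
    have h2 := (Complex.re_le_norm _).trans_lt h1
    linarith

/-- sums with symmetric coefficients -/
theorem sym_sum {m : ℕ} {δ : ℝ} (h0 : 0 < δ) (h : Fin m → ℝ) (c : Fin m → Fin m → ℂ) (hc : ∀ j l, c j l = c l j) :
    ∑ j, ∑ l, c j l * LZ (1 + 2 * δ) (h j - h l) = ∑ j, ∑ l, c j l * (((LZ (1 + 2 * δ) (h j - h l)).re : ℝ) : ℂ) := by
  have h1 : ∑ j, ∑ l, c j l * LZ (1 + 2 * δ) (h j - h l) =
      ∑ j, ∑ l, c j l * (starRingEnd ℂ) (LZ (1 + 2 * δ) (h j - h l)) := by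
    rw [sum_comm]
    refine sum_congr rfl fun j _ => sum_congr rfl fun l _ => ?_
    rw [hc l j, ← LZ_conj h0]
    congr 2
    ring
  have h2 : (2 : ℂ) * ∑ j, ∑ l, c j l * LZ (1 + 2 * δ) (h j - h l) =
      2 * ∑ j, ∑ l, c j l * (((LZ (1 + 2 * δ) (h j - h l)).re : ℝ) : ℂ) := by
    calc (2 : ℂ) * ∑ j, ∑ l, c j l * LZ (1 + 2 * δ) (h j - h l) =
        ∑ j, ∑ l, c j l * LZ (1 + 2 * δ) (h j - h l) +
          ∑ j, ∑ l, c j l * (starRingEnd ℂ) (LZ (1 + 2 * δ) (h j - h l)) := by rw [← h1]; ring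
      _ = ∑ j, ∑ l, c j l * (2 * (((LZ (1 + 2 * δ) (h j - h l)).re : ℝ) : ℂ)) := by
          rw [← sum_add_distrib]
          refine sum_congr rfl fun j _ => ?_
          rw [← sum_add_distrib]
          refine sum_congr rfl fun l _ => ?_
          rw [← mul_add, Complex.add_conj]
          push_cast
          ring
      _ = _ := by
          rw [mul_sum]
          refine sum_congr rfl fun j _ => ?_
          rw [mul_sum]
          refine sum_congr rfl fun l _ => ?_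
          ring
  exact mul_left_cancel₀ two_ne_zero h2

/-- the modulus of zeta -/
theorem LZ_exp (hZ : S_LZB) {δ : ℝ} (h0 : 0 < δ) (h1 : δ ≤ 1 / 16) (u : ℝ) :
    Real.exp ((LZ (1 + 2 * δ) u).re) = ‖riemannZeta (((1 + 2 * δ : ℝ) : ℂ) + u * I)‖ := by
  rw [← (hZ δ h0 h1 u).2, Complex.norm_exp]

/-- the upper bound at distance at least one -/
theorem LZ_up (hZ : S_LZB) {δ : ℝ} (h0 : 0 < δ) (h1 : δ ≤ 1 / 16) {u : ℝ} (hu : 1 ≤ |u|) :
    (LZ (1 + 2 * δ) u).re ≤ Real.log (4 + Real.log (1 + |u|)) := by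
  have key : ∀ v : ℝ, 1 ≤ v → (LZ (1 + 2 * δ) v).re ≤ Real.log (4 + Real.log (1 + v)) := by
    intro v hv
    have hv0 : 0 < v := by linarith
    set N : ℕ := ⌈v⌉₊ with hN
    have hNv : v ≤ N := Nat.le_ceil _
    have hN1 : 1 ≤ N := by
      have : (1 : ℝ) ≤ N := hv.trans hNv
      exact_mod_cast this
    have hNv1 : (N : ℝ) ≤ 1 + v := by
      have := Nat.ceil_lt_add_one hv0.le
      rw [← hN] at this
      linarith
    have e1 := Run7.h772.WN.zpa hN1 h0 h1 hv
    have e2 := Run7.h772.WN.sum_le_log (P := ∅) (N := N) h0 v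
    have e3 : Run7.h772.WN.SP ∅ N = Icc 1 N := by
      ext n
      rw [Run7.h772.WN.mem_SP]
      simp
    rw [e3] at e2
    have e4 : ‖riemannZeta (1 + 2 * δ + v * I)‖ ≤ 4 + Real.log (1 + v) := by
      have f1 := norm_add_le (riemannZeta (1 + 2 * δ + v * I) - ∑ n ∈ Icc 1 N, (n:ℂ) ^ (-(1 + 2 * δ + v * I : ℂ)))
        (∑ n ∈ Icc 1 N, (n:ℂ) ^ (-(1 + 2 * δ + v * I : ℂ)))
      rw [sub_add_cancel] at f1
      have f2 : 1 / v ≤ 1 := by rw [div_le_one hv0]; exact hv
      have f3 : 2 * v / N ≤ 2 := by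
        have : (0 : ℝ) < N := by exact_mod_cast hN1
        rw [div_le_iff₀ this]
        linarith
      have f4 : Real.log N ≤ Real.log (1 + v) :=
        Real.log_le_log (by exact_mod_cast hN1) hNv1
      linarith
    have e5 := LZ_exp hZ h0 h1 v
    have e6 : (((1 + 2 * δ : ℝ) : ℂ) + v * I) = 1 + 2 * δ + v * I := by push_cast; ring
    rw [e6] at e5
    rw [← e5] at e4
    have e7 : 0 < 4 + Real.log (1 + v) := lt_of_lt_of_le (Real.exp_pos _) e4
    rw [Real.le_log_iff_exp_le e7]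
    exact e4
  rcases le_or_gt 0 u with h | h
  · rw [abs_of_nonneg h] at hu ⊢
    exact key u hu
  · rw [abs_of_neg h] at hu ⊢
    have h2 := key (-u) hu
    rw [LZ_conj h0 u, Complex.conj_re] at h2
    exact h2

/-- the value at zero -/
theorem LZ_zero (hZ : S_LZB) : ∃ C : ℝ, 0 ≤ C ∧ ∀ δ : ℝ, 0 < δ → δ ≤ 1 / 16 →
    |(LZ (1 + 2 * δ) 0).re - Real.log (1 / δ)| ≤ C := by
  -- `2 δ ζ(1 + 2 δ)` is between positive constants
  set f : ℝ → ℝ := fun δ => ‖Function.update (fun s => (s - 1) * riemannZeta s) 1 1 ((1 + 2 * δ : ℝ) : ℂ)‖ with hf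
  have hZc : Continuous (Function.update (fun s => (s - 1) * riemannZeta s) 1 1) := by
    rw [continuous_iff_continuousAt]
    intro s
    by_cases hs : s = 1
    · subst hs
      rw [continuousAt_update_same]
      exact riemannZeta_residue_one
    · rw [continuousAt_update_of_ne hs]
      exact ((continuous_id.sub continuous_const).continuousAt).mul (differentiableAt_riemannZeta hs).continuousAt
  have hfc : Continuous f := by
    rw [hf]
    refine (hZc.comp ?_).norm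
    fun_prop
  have hfp : ∀ δ ∈ Set.Icc (0 : ℝ) (1 / 16), 0 < f δ := by
    intro δ hδ
    rw [hf]
    show 0 < ‖_‖
    rw [norm_pos_iff]
    by_cases h1 : ((1 + 2 * δ : ℝ) : ℂ) = 1
    · rw [h1, Function.update_self]
      exact one_ne_zero
    · rw [Function.update_of_ne h1]
      refine mul_ne_zero (sub_ne_zero.2 h1) (riemannZeta_ne_zero_of_one_le_re ?_)
      rw [Complex.ofReal_re]
      linarith [hδ.1]
  obtain ⟨a, ha, ha2⟩ := isCompact_Icc.exists_isMinOn (s := Set.Icc (0 : ℝ) (1 / 16)) ⟨0, by constructor <;> norm_num⟩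
    hfc.continuousOn
  obtain ⟨b, hb, hb2⟩ := isCompact_Icc.exists_isMaxOn (s := Set.Icc (0 : ℝ) (1 / 16)) ⟨0, by constructor <;> norm_num⟩
    hfc.continuousOn
  have hca := hfp a ha
  refine ⟨|Real.log (f a)| + |Real.log (f b)| + Real.log 2, by
    have := Real.log_nonneg (by norm_num : (1 : ℝ) ≤ 2); positivity, fun δ h0 h1 => ?_⟩
  have hm : δ ∈ Set.Icc (0 : ℝ) (1 / 16) := ⟨h0.le, h1⟩
  have g1 : f a ≤ f δ := ha2 hm
  have g2 : f δ ≤ f b := hb2 hm
  have hne : ((1 + 2 * δ : ℝ) : ℂ) ≠ 1 := by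
    intro h2
    have := congrArg Complex.re h2
    rw [Complex.ofReal_re, Complex.one_re] at this
    linarith
  have e1 : f δ = 2 * δ * ‖riemannZeta ((1 + 2 * δ : ℝ) : ℂ)‖ := by
    rw [hf]
    show ‖_‖ = _
    rw [Function.update_of_ne hne, norm_mul]
    congr 1
    have : ((1 + 2 * δ : ℝ) : ℂ) - 1 = ((2 * δ : ℝ) : ℂ) := by push_cast; ring
    rw [this, Complex.norm_real, Real.norm_of_nonneg (by positivity)]
  have e2 := LZ_exp hZ h0 h1 0
  rw [Complex.ofReal_zero, zero_mul, add_zero] at e2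
  rw [← e2] at e1
  have hfd := hfp δ hm
  have e3 : Real.log (f δ) = Real.log 2 + Real.log δ + (LZ (1 + 2 * δ) 0).re := by
    rw [e1, Real.log_mul (by positivity) (Real.exp_pos _).ne', Real.log_mul (by norm_num) h0.ne', Real.log_exp]
  have l1 := Real.log_le_log hca g1
  have l2 := Real.log_le_log hfd g2
  rw [one_div, Real.log_inv, abs_le]
  have a1 := neg_abs_le (Real.log (f a))
  have a2 := le_abs_self (Real.log (f b))
  have a3 := abs_nonneg (Real.log (f a))
  have a4 := abs_nonneg (Real.log (f b))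
  have a5 : 0 ≤ Real.log 2 := Real.log_nonneg (by norm_num)
  constructor <;> linarith

/-- properties for large `log (1/δ)` -/
theorem Ev.of_log {P : ℝ → Prop} (h : ∀ᶠ L : ℝ in atTop, P L) : Ev fun _ δ => P (Real.log (1 / δ)) := by
  obtain ⟨L₀, hL₀⟩ := eventually_atTop.1 h
  refine (Ev.of_le (d := Real.exp (-L₀)) (Real.exp_pos _)).mono ?_
  intro X δ _ hδ _ h1
  refine hL₀ _ ?_
  rw [one_div, Real.log_inv]
  have := Real.log_le_log hδ h1
  rw [Real.log_exp] at this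
  linarith

end Run7.h651.WN
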