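import Mathlib

/-!
# Project WN (helper291), part LAW (helper651): a uniform form of the continuity theorem
-/

set_option autoImplicit false

namespace Run7.h651.WN

open Finset Filter MeasureTheory Topology ProbabilityTheory

/-- the Euclidean space -/
abbrev ES (m : ℕ) := EuclideanSpace ℝ (Fin m)

theorem gauss_prod (m : ℕ) (φ : ℝ → ℝ) (hφ : Continuous φ) :
    ∫ x, ∏ j, φ (x j) ∂(stdGaussian (ES m)) = (∫ x, φ x ∂(gaussianReal 0 1)) ^ m := by
  rw [← map_pi_eq_stdGaussian, integral_map]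
  · have h1 := integral_fintype_prod_eq_prod (μ := fun _ : Fin m => gaussianReal 0 1)
      (fun (_ : Fin m) (x : ℝ) => φ x)
    rw [prod_const, card_univ, Fintype.card_fin] at h1
    exact h1
  · exact (WithLp.measurable_toLp 2 _).aemeasurable
  · refine Continuous.aestronglyMeasurable ?_
    exact continuous_finsetProd _ fun j _ => hφ.comp (by fun_prop)

theorem unif (m : ℕ) (φ : ℝ → ℝ) (hφ : Continuous φ) (h0 : ∀ x, 0 ≤ φ x) (h1 : ∀ x, φ x ≤ 1)
    (ε : ℝ) (hε : 0 < ε) : ∃ R τ : ℝ, 0 < R ∧ 0 < τ ∧ ∀ μ : Measure (ES m), IsProbabilityMeasure μ →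
      (∀ ξ : ES m, (∀ j, |ξ j| ≤ R) → ‖charFun μ ξ - Complex.exp (((-(‖ξ‖ ^ 2) / 2 : ℝ)) : ℂ)‖ ≤ τ) →
      |∫ x, ∏ j, φ (x j) ∂μ - (∫ x, φ x ∂(gaussianReal 0 1)) ^ m| ≤ ε := by
  by_contra hcon
  push Not at hcon
  have hp : ∀ n : ℕ, (0 : ℝ) < (n : ℝ) + 1 := fun n => by positivity
  choose μ hμ1 hμ2 hμ3 using fun n : ℕ => hcon ((n : ℝ) + 1) (1 / ((n : ℝ) + 1)) (hp n) (by positivity)
  set ν : ℕ → ProbabilityMeasure (ES m) := fun n => ⟨μ n, hμ1 n⟩ with hν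
  set γ : ProbabilityMeasure (ES m) := ⟨stdGaussian (ES m), inferInstance⟩ with hγ
  have ht : Tendsto ν atTop (𝓝 γ) := by
    refine ProbabilityMeasure.tendsto_iff_tendsto_charFun.2 fun ξ => ?_
    rw [tendsto_iff_norm_sub_tendsto_zero]
    have e1 : charFun (γ : Measure (ES m)) ξ = Complex.exp (((-(‖ξ‖ ^ 2) / 2 : ℝ)) : ℂ) := by
      rw [hγ]
      show charFun (stdGaussian (ES m)) ξ = _
      rw [charFun_stdGaussian]
      push_cast
      rfl
    rw [e1]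
    refine squeeze_zero' (Eventually.of_forall fun n => norm_nonneg _) ?_ (tendsto_one_div_add_atTop_nhds_zero_nat (𝕜 := ℝ))
    obtain ⟨n0, hn0⟩ := exists_nat_ge ‖ξ‖
    filter_upwards [eventually_ge_atTop n0] with n hn
    refine hμ2 n ξ fun j => ?_
    have h2 : ‖ξ j‖ ≤ ‖ξ‖ := PiLp.norm_apply_le ξ j
    rw [Real.norm_eq_abs] at h2
    have h3 : (n0 : ℝ) ≤ n := by exact_mod_cast hn
    linarith
  rw [ProbabilityMeasure.tendsto_iff_forall_integral_tendsto] at ht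
  have hc : Continuous fun x : ES m => ∏ j, φ (x j) :=
    continuous_finsetProd _ fun j _ => hφ.comp (by fun_prop)
  have hb : ∀ x : ES m, ‖∏ j, φ (x j)‖ ≤ 1 := by
    intro x
    rw [Real.norm_of_nonneg (prod_nonneg fun j _ => h0 _)]
    exact prod_le_one (fun j _ => h0 _) fun j _ => h1 _
  have h4 := ht (BoundedContinuousFunction.ofNormedAddCommGroup (fun x : ES m => ∏ j, φ (x j)) hc 1 hb)
  have h5 : Tendsto (fun n => ∫ x, ∏ j, φ (x j) ∂(μ n)) atTop (𝓝 (∫ x, ∏ j, φ (x j) ∂(stdGaussian (ES m)))) := h4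
  rw [gauss_prod m φ hφ, Metric.tendsto_atTop] at h5
  obtain ⟨n, hn⟩ := h5 ε hε
  have h6 := hn n le_rfl
  rw [Real.dist_eq] at h6
  exact absurd h6 (not_lt.2 (hμ3 n).le)

end Run7.h651.WN
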