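import Pool.Agent.Run7.h651.WN.LAW2

/-!
# Project WN (helper291), part LAW (helper651): the main terms
-/

set_option autoImplicit false

namespace Run7.h651.WN

open Finset Filter MeasureTheory Topology Complex
open Pool.Agent.N748.MG Pool.Agent.N748.MJ

variable {m : ℕ}

/-- the exponents -/
noncomputable def be (k L : ℝ) (ξ : Fin m → ℝ) : Fin m → ℂ := fun j => (k : ℂ) + ((ξ j / √(2 * L) : ℝ) : ℂ) * I

/-- the coefficients -/
noncomputable def ce (k L : ℝ) (ξ : Fin m → ℝ) (j l : Fin m) : ℂ := be k L ξ j * be k L ξ l - (k : ℂ) * k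

theorem ce_symm (k L : ℝ) (ξ : Fin m → ℝ) (j l : Fin m) : ce k L ξ j l = ce k L ξ l j := by
  unfold ce; ring

theorem ce_eq (k L : ℝ) (ξ : Fin m → ℝ) (j l : Fin m) : ce k L ξ j l =
    ((k * (ξ j / √(2 * L) + ξ l / √(2 * L)) : ℝ) : ℂ) * I - ((ξ j / √(2 * L) * (ξ l / √(2 * L)) : ℝ) : ℂ) := by
  unfold ce be
  push_cast
  linear_combination ((ξ j : ℂ) / (√(2 * L) : ℝ)) * ((ξ l : ℂ) / (√(2 * L) : ℝ)) * Complex.I_sq

theorem tau_le {L R x : ℝ} (hL : 1 ≤ L) (hR : 0 ≤ R) (hx : |x| ≤ R) : |x / √(2 * L)| ≤ R / √L := by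
  have h1 : 0 < √L := Real.sqrt_pos.2 (by linarith)
  have h2 : √L ≤ √(2 * L) := Real.sqrt_le_sqrt (by linarith)
  rw [abs_div, abs_of_pos (lt_of_lt_of_le h1 h2)]
  exact div_le_div₀ hR hx h1 h2

theorem ce_le {k L R : ℝ} {ξ : Fin m → ℝ} (hk : 0 < k) (hL : 1 ≤ L) (hR : 0 ≤ R) (hξ : ∀ j, |ξ j| ≤ R) (j l : Fin m) :
    ‖ce k L ξ j l‖ ≤ (2 * k * R + R ^ 2) / √L := by
  rw [ce_eq]
  have h1 : 0 < √L := Real.sqrt_pos.2 (by linarith)
  have h1' : 1 ≤ √L := by rw [Real.one_le_sqrt]; exact hL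
  have hj := tau_le hL hR (hξ j)
  have hl := tau_le hL hR (hξ l)
  refine (norm_sub_le _ _).trans ?_
  rw [norm_mul, Complex.norm_I, mul_one, Complex.norm_real, Complex.norm_real, Real.norm_eq_abs, Real.norm_eq_abs,
    abs_mul, abs_mul, abs_of_pos hk]
  have h2 : |ξ j / √(2 * L) + ξ l / √(2 * L)| ≤ R / √L + R / √L := (abs_add_le _ _).trans (add_le_add hj hl)
  have h3 : |ξ j / √(2 * L)| * |ξ l / √(2 * L)| ≤ R / √L * (R / √L) :=
    mul_le_mul hj hl (abs_nonneg _) (by positivity)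
  have h4 : R / √L * (R / √L) ≤ R ^ 2 / √L := by
    rw [div_mul_div_comm, ← sq, div_le_div_iff₀ (by positivity) h1]
    have : 0 ≤ R ^ 2 := sq_nonneg R
    nlinarith [mul_nonneg this h1.le]
  calc k * |ξ j / √(2 * L) + ξ l / √(2 * L)| + |ξ j / √(2 * L)| * |ξ l / √(2 * L)| ≤
      k * (R / √L + R / √L) + R ^ 2 / √L := add_le_add (mul_le_mul_of_nonneg_left h2 hk.le) (h3.trans h4)
    _ = _ := by field_simp; ring

/-- the diagonal terms -/
theorem ce_diag {k L : ℝ} (hL : 0 < L) (ξ : Fin m → ℝ) :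
    ∑ j, ce k L ξ j j * (L : ℂ) = ((∑ j, ξ j * (k * L / √(L / 2)) : ℝ) : ℂ) * I - (((∑ j, ξ j ^ 2) / 2 : ℝ) : ℂ) := by
  have h2 : √(2 * L) = 2 * √(L / 2) := by
    rw [show 2 * L = 2 ^ 2 * (L / 2) by ring, Real.sqrt_mul (by norm_num), Real.sqrt_sq (by norm_num)]
  have h3 : √(L / 2) * √(L / 2) = L / 2 := Real.mul_self_sqrt (by positivity)
  have h4 : 0 < √(L / 2) := Real.sqrt_pos.2 (by positivity)
  have e : ∀ j, ce k L ξ j j * (L : ℂ) =
      ((ξ j * (k * L / √(L / 2)) : ℝ) : ℂ) * I - ((ξ j ^ 2 / 2 : ℝ) : ℂ) := by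
    intro j
    rw [ce_eq]
    have f1 : (k * (ξ j / √(2 * L) + ξ j / √(2 * L))) * L = ξ j * (k * L / √(L / 2)) := by
      rw [h2]; field_simp; ring
    have f2 : (ξ j / √(2 * L) * (ξ j / √(2 * L))) * L = ξ j ^ 2 / 2 := by
      rw [h2]
      have : 2 * √(L / 2) * (2 * √(L / 2)) = 2 * L := by
        calc 2 * √(L / 2) * (2 * √(L / 2)) = 4 * (√(L / 2) * √(L / 2)) := by ring
          _ = 2 * L := by rw [h3]; ring
      rw [div_mul_div_comm, this]
      field_simp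
    rw [sub_mul, ← f1, ← f2]
    push_cast
    ring
  rw [sum_congr rfl fun j _ => e j, sum_sub_distrib, ← sum_mul]
  congr 1
  · push_cast; rfl
  · rw [sum_div]; push_cast; rfl

theorem LM_diff (hZ : S_LZB) (m : ℕ) (k D K R : ℝ) (hk : 0 < k) (hD : 0 < D) (hR : 0 < R) (ε : ℝ) (hε : 0 < ε) :
    Ev fun X δ => ∀ h : Fin m → ℝ, (∀ j, |h j| ≤ δ ^ (-D)) →
      (∀ j l, j ≠ l → 1 ≤ |h j - h l| ∧ -K ≤ (LZ (1 + 2 * δ) (h j - h l)).re) →
      ∀ ξ : Fin m → ℝ, (∀ j, |ξ j| ≤ R) →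
      ‖LM (be k (Real.log (1 / δ)) ξ) (be k (Real.log (1 / δ)) ξ) h δ - LM (fun _ => (k : ℂ)) (fun _ => (k : ℂ)) h δ -
        (((∑ j, ξ j * (k * Real.log (1 / δ) / √(Real.log (1 / δ) / 2)) : ℝ) : ℂ) * I -
          (((∑ j, ξ j ^ 2) / 2 : ℝ) : ℂ))‖ ≤ ε := by
  obtain ⟨C, hC0, hC⟩ := LZ_zero hZ
  set B1 : ℝ := C + |K| + 4 * (6 + D) ^ ((1:ℝ) / 4) with hB1
  have hB10 : 0 ≤ B1 := by positivity
  set A : ℝ := (m : ℝ) * ((m : ℝ) * ((2 * k * R + R ^ 2) * B1)) with hA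
  have hA0 : 0 ≤ A := by positivity
  have hlim : ∀ᶠ L : ℝ in atTop, A * L ^ (-((1:ℝ) / 4)) ≤ ε := by
    have h1 : Tendsto (fun L : ℝ => A * L ^ (-((1:ℝ) / 4))) atTop (𝓝 (A * 0)) :=
      (tendsto_rpow_neg_atTop (by norm_num)).const_mul A
    rw [mul_zero] at h1
    exact h1.eventually_le_const hε
  refine (Ev.of_log hlim).mono ?_
  intro X δ hX hδ hδ1 hL1 h hh hhl ξ hξ
  set L := Real.log (1 / δ) with hL
  have hL1' : 1 ≤ L := log_inv_ge hδ hδ1
  have hL0 : 0 < L := by linarith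
  have e1 : LM (be k L ξ) (be k L ξ) h δ - LM (fun _ => (k : ℂ)) (fun _ => (k : ℂ)) h δ =
      ∑ j, ∑ l, ce k L ξ j l * (((LZ (1 + 2 * δ) (h j - h l)).re : ℝ) : ℂ) := by
    rw [← sym_sum hδ h _ (ce_symm k L ξ)]
    unfold LM ce
    rw [← sum_sub_distrib]
    refine sum_congr rfl fun j _ => ?_
    rw [← sum_sub_distrib]
    refine sum_congr rfl fun l _ => ?_
    ring
  have e2 : ∑ j, ce k L ξ j j * (L : ℂ) = ∑ j, ∑ l, ce k L ξ j l * (((if j = l then L else 0 : ℝ)) : ℂ) := by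
    refine sum_congr rfl fun j _ => ?_
    rw [sum_eq_single j]
    · rw [if_pos rfl]
    · intro l _ hl
      rw [if_neg (Ne.symm hl)]
      simp
    · intro h; exact absurd (mem_univ j) h
  rw [e1, ← ce_diag hL0 ξ, e2, ← sum_sub_distrib]
  have hB : ∀ j l, |(LZ (1 + 2 * δ) (h j - h l)).re - (if j = l then L else 0)| ≤ B1 * L ^ ((1:ℝ) / 4) := by
    intro j l
    have hL4 : 1 ≤ L ^ ((1:ℝ) / 4) := Real.one_le_rpow hL1' (by norm_num)
    have h64 : 0 ≤ (6 + D) ^ ((1:ℝ) / 4) := by positivity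
    by_cases hjl : j = l
    · rw [if_pos hjl, hjl, sub_self]
      refine (hC δ hδ hδ1).trans ?_
      have h1 : C ≤ B1 := by rw [hB1]; have := abs_nonneg K; linarith
      calc C ≤ B1 * 1 := by linarith
        _ ≤ B1 * L ^ ((1:ℝ) / 4) := mul_le_mul_of_nonneg_left hL4 hB10
    · rw [if_neg hjl, sub_zero]
      obtain ⟨g1, g2⟩ := hhl j l hjl
      have g3 := LZ_up hZ hδ hδ1 g1
      have g4 : |h j - h l| ≤ 2 * δ ^ (-D) := by
        refine (abs_sub _ _).trans ?_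
        linarith [hh j, hh l]
      have g5 : δ ^ (-D) = Real.exp (D * L) := by
        rw [Real.rpow_def_of_pos hδ, hL, one_div, Real.log_inv]
        congr 1
        ring
      have g6 : Real.log (1 + |h j - h l|) ≤ 2 + D * L := by
        have h0 : 0 < 1 + |h j - h l| := by have := abs_nonneg (h j - h l); linarith
        rw [Real.log_le_iff_le_exp h0, Real.exp_add]
        have h1 : 1 ≤ Real.exp (D * L) := Real.one_le_exp (by positivity)
        have h2 : 3 ≤ Real.exp 2 := by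
          have := Real.add_one_le_exp (2 : ℝ)
          linarith
        rw [g5] at g4
        nlinarith
      have hp1 : 0 < 4 + Real.log (1 + |h j - h l|) := by
        have : 0 ≤ Real.log (1 + |h j - h l|) := Real.log_nonneg (by have := abs_nonneg (h j - h l); linarith)
        linarith
      have g7 : Real.log (4 + Real.log (1 + |h j - h l|)) ≤ 4 * (6 + D) ^ ((1:ℝ) / 4) * L ^ ((1:ℝ) / 4) := by
        have h1 : 4 + Real.log (1 + |h j - h l|) ≤ (6 + D) * L := by nlinarith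
        have h2 := Real.log_le_log hp1 h1
        have h3 := Real.log_le_rpow_div (x := (6 + D) * L) (by positivity) (ε := (1:ℝ) / 4) (by norm_num)
        rw [Real.mul_rpow (by positivity) hL0.le] at h3
        have h4 : (6 + D) ^ ((1:ℝ) / 4) * L ^ ((1:ℝ) / 4) / (1 / 4) = 4 * (6 + D) ^ ((1:ℝ) / 4) * L ^ ((1:ℝ) / 4) := by
          ring
        rw [h4] at h3
        exact h2.trans h3
      have g8 : 0 ≤ 4 * (6 + D) ^ ((1:ℝ) / 4) * L ^ ((1:ℝ) / 4) := by positivity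
      have g9 : |K| ≤ |K| * L ^ ((1:ℝ) / 4) := le_mul_of_one_le_right (abs_nonneg K) hL4
      have g10 : 0 ≤ C * L ^ ((1:ℝ) / 4) := by positivity
      have g11 := le_abs_self K
      have g12 := abs_nonneg K
      have g13 : B1 * L ^ ((1:ℝ) / 4) = C * L ^ ((1:ℝ) / 4) + |K| * L ^ ((1:ℝ) / 4) +
          4 * (6 + D) ^ ((1:ℝ) / 4) * L ^ ((1:ℝ) / 4) := by rw [hB1]; ring
      rw [abs_le, g13]
      constructor <;> linarith
  have hT : ∀ j l, ‖ce k L ξ j l * (((LZ (1 + 2 * δ) (h j - h l)).re : ℝ) : ℂ) -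
      ce k L ξ j l * (((if j = l then L else 0 : ℝ)) : ℂ)‖ ≤ ((2 * k * R + R ^ 2) * B1) * L ^ (-((1:ℝ) / 4)) := by
    intro j l
    rw [← mul_sub, ← Complex.ofReal_sub, norm_mul, Complex.norm_real, Real.norm_eq_abs]
    have h1 := mul_le_mul (ce_le hk hL1' hR.le hξ j l) (hB j l) (abs_nonneg _) (by positivity)
    refine h1.trans (le_of_eq ?_)
    have h2 : L ^ ((1:ℝ) / 4) / √L = L ^ (-((1:ℝ) / 4)) := by
      rw [Real.sqrt_eq_rpow, ← Real.rpow_sub hL0]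
      norm_num
    rw [← h2]
    ring
  calc ‖∑ j, (∑ l, ce k L ξ j l * (((LZ (1 + 2 * δ) (h j - h l)).re : ℝ) : ℂ) -
        ∑ l, ce k L ξ j l * (((if j = l then L else 0 : ℝ)) : ℂ))‖ ≤
      ∑ _j : Fin m, (m : ℝ) * (((2 * k * R + R ^ 2) * B1) * L ^ (-((1:ℝ) / 4))) := by
        refine (norm_sum_le _ _).trans (sum_le_sum fun j _ => ?_)
        rw [← sum_sub_distrib]
        refine (norm_sum_le _ _).trans ((sum_le_sum fun l _ => hT j l).trans ?_)
        rw [sum_const, card_univ, Fintype.card_fin, nsmul_eq_mul]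
    _ = A * L ^ (-((1:ℝ) / 4)) := by
        rw [sum_const, card_univ, Fintype.card_fin, nsmul_eq_mul, hA]
        ring
    _ ≤ ε := hL1

end Run7.h651.WN
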