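import Pool.Agent.Run7.h651.WN.LAW1
import Pool.Agent.Run7.h651.WN.LAW3

/-!
# Project WN (helper291), part LAW (helper651): the law
-/

set_option autoImplicit false

namespace Run7.h651.WN

open Finset Filter MeasureTheory Topology Complex
open Pool.Agent.N748.MG Pool.Agent.N748.MJ
open Run7.h291.WN (YY)

variable {m : ℕ}

/-- the vector of the normalised logarithms -/
noncomputable def Yv (k : ℝ) (h : Fin m → ℝ) (δ t : ℝ) : ES m := WithLp.toLp 2 fun j => YY k δ (t + h j)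

theorem YY_meas (k : ℝ) {δ : ℝ} (h1 : δ ≤ 1 / 16) : Measurable fun t => YY k δ t := by
  unfold YY
  exact ((Real.measurable_log.comp (TMA.cont h1).measurable).sub measurable_const).div_const _

theorem Yv_meas (k : ℝ) (h : Fin m → ℝ) {δ : ℝ} (h1 : δ ≤ 1 / 16) : Measurable fun t => Yv k h δ t := by
  unfold Yv
  refine (WithLp.measurable_toLp 2 _).comp ?_
  rw [measurable_pi_iff]
  intro j
  exact (YY_meas k h1).comp (measurable_id.add_const _)

/-- the density -/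
noncomputable def rh (k : ℝ) (h : Fin m → ℝ) (δ M t : ℝ) : ℝ := SM.G (fun _ => k) h δ t / M

theorem rh_nn (k : ℝ) (h : Fin m → ℝ) (δ : ℝ) {M : ℝ} (hM : 0 < M) (t : ℝ) : 0 ≤ rh k h δ M t :=
  div_nonneg (SM.G_nn _ _ _ _) hM.le

theorem rh_meas {k : ℝ} (hk : 0 < k) (h : Fin m → ℝ) {δ : ℝ} (h1 : δ ≤ 1 / 16) (M : ℝ) :
    Measurable fun t => rh k h δ M t := by
  unfold rh
  exact (SM.G_cont h1 fun _ => hk.le).measurable.div_const _

/-- the law -/
noncomputable def mu (k : ℝ) (h : Fin m → ℝ) (δ M : ℝ) (N : Set ℝ) : Measure (ES m) :=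
  ((volume.restrict N).withDensity (fun t => ENNReal.ofReal (rh k h δ M t))).map (fun t => Yv k h δ t)

theorem int_mu {E : Type*} [NormedAddCommGroup E] [NormedSpace ℝ E] {k : ℝ} (hk : 0 < k) (h : Fin m → ℝ) {δ : ℝ}
    (h1 : δ ≤ 1 / 16) {M : ℝ} (hM : 0 < M) (N : Set ℝ) {f : ES m → E} (hf : StronglyMeasurable f) :
    ∫ x, f x ∂(mu k h δ M N) = ∫ t in N, rh k h δ M t • f (Yv k h δ t) := by
  unfold mu
  rw [integral_map (Yv_meas k h h1).aemeasurable hf.aestronglyMeasurable]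
  have h2 : (fun t => ENNReal.ofReal (rh k h δ M t)) = fun t => (((rh k h δ M t).toNNReal : NNReal) : ENNReal) := rfl
  rw [h2, integral_withDensity_eq_integral_smul (rh_meas hk h h1 M).real_toNNReal]
  refine integral_congr_ae (Eventually.of_forall fun t => ?_)
  show (rh k h δ M t).toNNReal • f (Yv k h δ t) = rh k h δ M t • f (Yv k h δ t)
  rw [NNReal.smul_def, Real.coe_toNNReal _ (rh_nn k h δ hM t)]

theorem mu_prob {k : ℝ} (h : Fin m → ℝ) {δ : ℝ} (h1 : δ ≤ 1 / 16) {M : ℝ} (hM : 0 < M) {N : Set ℝ}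
    (hI : IntegrableOn (fun t => SM.G (fun _ => k) h δ t) N) (hMe : ∫ t in N, SM.G (fun _ => k) h δ t = M) :
    IsProbabilityMeasure (mu k h δ M N) := by
  have h2 : IsProbabilityMeasure ((volume.restrict N).withDensity (fun t => ENNReal.ofReal (rh k h δ M t))) := by
    constructor
    rw [withDensity_apply _ MeasurableSet.univ, Measure.restrict_univ, ← ofReal_integral_eq_lintegral_ofReal]
    · unfold rh
      rw [integral_div, hMe, div_self hM.ne', ENNReal.ofReal_one]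
    · unfold rh
      exact hI.div_const M
    · exact Eventually.of_forall fun t => rh_nn k h δ hM t
  unfold mu
  exact Measure.isProbabilityMeasure_map (Yv_meas k h h1).aemeasurable

theorem inner_Yv {k : ℝ} (h : Fin m → ℝ) (δ t : ℝ) (ξ : ES m) :
    inner ℝ (Yv k h δ t) ξ = ∑ j, ξ j * YY k δ (t + h j) := by
  rw [PiLp.inner_apply]
  refine sum_congr rfl fun j _ => ?_
  simp [Yv]

theorem ZZ_be {k L x : ℝ} (hL : 0 < L) {z : ℂ} (hz : 0 < ‖z‖) :
    ZZ z ((k : ℂ) + ((x / √(2 * L) : ℝ) : ℂ) * I) 0 =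
      ((‖z‖ ^ (2 * k) : ℝ) : ℂ) * cexp (((x * (Real.log ‖z‖ / √(L / 2)) : ℝ) : ℂ) * I) := by
  have h2 : √(2 * L) = 2 * √(L / 2) := by
    rw [show 2 * L = 2 ^ 2 * (L / 2) by ring, Real.sqrt_mul (by norm_num), Real.sqrt_sq (by norm_num)]
  have h4 : 0 < √(L / 2) := Real.sqrt_pos.2 (by positivity)
  have hz' : ((‖z‖ : ℝ) : ℂ) ≠ 0 := by exact_mod_cast hz.ne'
  unfold ZZ
  rw [zpow_zero, mul_one, Complex.cpow_def_of_ne_zero hz', ← Complex.ofReal_log hz.le, Real.rpow_def_of_pos hz,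
    Complex.ofReal_exp, ← Complex.exp_add]
  congr 1
  have e : x * (Real.log ‖z‖ / √(L / 2)) = Real.log ‖z‖ * (2 * (x / √(2 * L))) := by
    rw [h2]; field_simp
  rw [e]
  push_cast
  ring

/-- the characteristic function -/
theorem char_mu {k : ℝ} (hk : 0 < k) (h : Fin m → ℝ) {δ : ℝ} (h0 : 0 < δ) (h1 : δ ≤ 1 / 16) {M : ℝ} (hM : 0 < M)
    {N : Set ℝ} (hN : MeasurableSet N) (hz : ∀ t ∈ N, ∀ j, 0 < mz δ (t + h j)) (ξ : ES m) :
    charFun (mu k h δ M N) ξ =
      cexp (-(((∑ j, ξ j * (k * Real.log (1 / δ) / √(Real.log (1 / δ) / 2)) : ℝ) : ℂ) * I)) * (1 / (M : ℂ)) *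
        ∫ t in N, ∏ j, ZZ (riemannZeta (pw δ (t + h j))) (be k (Real.log (1 / δ)) ξ j) ((fun _ => 0 : Fin m → ℤ) j) := by
  set L := Real.log (1 / δ) with hL
  have hL0 : 0 < L := lt_of_lt_of_le one_pos (log_inv_ge h0 h1)
  rw [charFun_apply, int_mu hk h h1 hM N, ← integral_const_mul]
  · refine setIntegral_congr_fun hN fun t ht => ?_
    show rh k h δ M t • cexp ((inner ℝ (Yv k h δ t) ξ : ℝ) * I) = _
    rw [inner_Yv]
    have e1 : ∏ j, ZZ (riemannZeta (pw δ (t + h j))) (be k L ξ j) ((fun _ => 0 : Fin m → ℤ) j) =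
        ((SM.G (fun _ => k) h δ t : ℝ) : ℂ) * cexp (((∑ j, ξ j * (Real.log (mz δ (t + h j)) / √(L / 2)) : ℝ) : ℂ) * I) := by
      have e2 : ∀ j, ZZ (riemannZeta (pw δ (t + h j))) (be k L ξ j) ((fun _ => 0 : Fin m → ℤ) j) =
          (((mz δ (t + h j)) ^ (2 * k) : ℝ) : ℂ) *
            cexp (((ξ j * (Real.log (mz δ (t + h j)) / √(L / 2)) : ℝ) : ℂ) * I) := fun j =>
        ZZ_be hL0 (hz t ht j)
      rw [prod_congr rfl fun j _ => e2 j, prod_mul_distrib, ← Complex.exp_sum, ← sum_mul]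
      unfold SM.G
      push_cast
      rfl
    rw [e1]
    have e3 : ∑ j, ξ j * YY k δ (t + h j) = ∑ j, ξ j * (Real.log (mz δ (t + h j)) / √(L / 2)) -
        ∑ j, ξ j * (k * L / √(L / 2)) := by
      rw [← sum_sub_distrib]
      refine sum_congr rfl fun j _ => ?_
      unfold YY
      rw [← hL, sub_div]
      ring
    rw [e3, Complex.ofReal_sub, sub_mul, Complex.exp_sub, Complex.exp_neg, Complex.real_smul]
    unfold rh
    have hM' : (M : ℂ) ≠ 0 := by exact_mod_cast hM.ne'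
    have hE := Complex.exp_ne_zero ((((∑ j, ξ j * (k * L / √(L / 2)) : ℝ)) : ℂ) * I)
    rw [Complex.ofReal_div]
    generalize cexp ((((∑ j, ξ j * (k * L / √(L / 2)) : ℝ)) : ℂ) * I) = E2 at hE ⊢
    generalize cexp ((((∑ j, ξ j * (Real.log (mz δ (t + h j)) / √(L / 2)) : ℝ)) : ℂ) * I) = E1
    field_simp
  · refine Measurable.stronglyMeasurable ?_
    refine Complex.measurable_exp.comp ?_
    refine Measurable.mul_const ?_ _
    refine Complex.measurable_ofReal.comp ?_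
    exact (Continuous.inner continuous_id continuous_const).measurable

end Run7.h651.WN
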